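import Mathlib

/-!
# Functions in `A^∞(B)` with natural boundaries on all affine (and all holomorphic) discs

For `f = ∑ c_J ⟨z, ζ_J⟩ ^ (k_J)` with directions `ζ_J` which come back to every direction, very
lacunary degrees `k_J` and coefficients `c_J = 2 ^ (-√k_J)`, the partial sums are compared with `f`
on a disc inside the unit disc, by Cauchy's estimates for the Taylor coefficients at a point near
`τ`. If `f ∘ Φ` extended to a neighbourhood of `τ`, the partial sums would be bounded at points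
outside the closed ball near `Φ(τ)` (overconvergence), but single terms are unbounded there.
-/

set_option autoImplicit false

open Metric Set Filter Topology

namespace Pool.Agent.Results.MP_ca9574_an.NaturalBoundaryH86

/-- the sequence `m 0 = 2`, `m (J+1) = (m J)^4` -/
def m : ℕ → ℕ
  | 0 => 2
  | (J + 1) => (m J) ^ 4

theorem two_le_m (J : ℕ) : 2 ≤ m J := by
  induction J with
  | zero => exact le_rfl
  | succ J ih =>
    show 2 ≤ (m J) ^ 4
    calc 2 ≤ m J := ih
      _ ≤ (m J) ^ 4 := Nat.le_self_pow (by norm_num) _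

theorem m_strictMono : StrictMono m := by
  refine strictMono_nat_of_lt_succ fun J => ?_
  show m J < (m J) ^ 4
  exact lt_self_pow₀ (by have := two_le_m J; omega) (by norm_num)

theorem m_add_le (J i : ℕ) : m J + i ≤ m (J + i) := by
  induction i with
  | zero => simp
  | succ i ih =>
    have : m (J + i) < m (J + (i + 1)) := m_strictMono (by omega)
    omega

/-- the exponents -/
def k (J : ℕ) : ℕ := (m J) ^ 2

/-- the coefficients -/
noncomputable def c (J : ℕ) : ℝ := (1 / 2) ^ (m J)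

theorem c_pos (J : ℕ) : 0 < c J := by unfold c; positivity

theorem summable_ck (M : ℕ) : Summable fun J => c J * (k J : ℝ) ^ M := by
  have h : Summable fun n : ℕ => (n : ℝ) ^ (2 * M) * (1 / 2 : ℝ) ^ n :=
    summable_pow_mul_geometric_of_norm_lt_one _ (by norm_num)
  have h2 := h.comp_injective m_strictMono.injective
  refine h2.congr fun J => ?_
  simp only [Function.comp, c, k]
  push_cast
  ring

theorem summable_c : Summable c := by
  have := summable_ck 0
  simpa using this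

theorem c_le (J : ℕ) : c J ≤ (1 / 2) * (1 / 2) ^ J := by
  have h := m_add_le 0 J
  rw [zero_add] at h
  have h0 : m 0 = 2 := rfl
  unfold c
  calc (1 / 2 : ℝ) ^ m J ≤ (1 / 2) ^ (J + 1) :=
        pow_le_pow_of_le_one (by norm_num) (by norm_num) (by omega)
    _ = _ := by ring

theorem sum_c_le (J : ℕ) : ∑ j ∈ Finset.range (J + 1), c j ≤ 1 := by
  have h : ∑ j ∈ Finset.range (J + 1), c j ≤ ∑ j ∈ Finset.range (J + 1), (1 / 2) * (1 / 2 : ℝ) ^ j :=
    Finset.sum_le_sum fun j _ => c_le j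
  refine h.trans ?_
  rw [← Finset.mul_sum]
  have h2 : ∑ j ∈ Finset.range (J + 1), (1 / 2 : ℝ) ^ j ≤ ∑' j : ℕ, (1 / 2 : ℝ) ^ j :=
    Summable.sum_le_tsum _ (fun _ _ => by positivity) (summable_geometric_of_lt_one (by norm_num) (by norm_num))
  rw [tsum_geometric_of_lt_one (by norm_num) (by norm_num)] at h2
  linarith

/-- the tail of the series of coefficients -/
theorem tail_le (J : ℕ) : ∑' i, c (i + (J + 1)) ≤ 2 * (1 / 2) ^ (m (J + 1)) := by
  have hs : Summable fun i => c (i + (J + 1)) := (summable_nat_add_iff (J + 1)).2 summable_c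
  have hb : ∀ i, c (i + (J + 1)) ≤ (1 / 2) ^ (m (J + 1)) * (1 / 2) ^ i := by
    intro i
    have h := m_add_le (J + 1) i
    unfold c
    rw [← pow_add, add_comm i (J + 1)]
    exact pow_le_pow_of_le_one (by norm_num) (by norm_num) h
  have hg : Summable fun i : ℕ => (1 / 2 : ℝ) ^ (m (J + 1)) * (1 / 2) ^ i :=
    (summable_geometric_of_lt_one (by norm_num) (by norm_num)).mul_left _
  refine (hs.tsum_le_tsum hb hg).trans ?_
  rw [tsum_mul_left, tsum_geometric_of_lt_one (by norm_num) (by norm_num)]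
  apply le_of_eq
  norm_num
  ring

/-- the gap condition -/
theorem gap (J : ℕ) : (∑' i, c (i + (J + 1))) * 8 ^ (k J) ≤ 2 := by
  have h1 := tail_le J
  have hm : m (J + 1) = (k J) * (k J) := by
    show (m J) ^ 4 = (m J) ^ 2 * (m J) ^ 2
    ring
  have hk : 3 ≤ k J := by
    have := two_le_m J
    unfold k
    nlinarith
  have h2 : (2 * (1 / 2 : ℝ) ^ (m (J + 1))) * 8 ^ (k J) = 2 * ((1 / 2) ^ (k J) * 8) ^ (k J) := by
    rw [hm, pow_mul, mul_pow]
    ring
  have h3 : ((1 / 2 : ℝ) ^ (k J) * 8) ≤ 1 := by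
    have : (1 / 2 : ℝ) ^ (k J) ≤ (1 / 2) ^ 3 :=
      pow_le_pow_of_le_one (by norm_num) (by norm_num) hk
    linarith
  calc (∑' i, c (i + (J + 1))) * 8 ^ (k J) ≤ (2 * (1 / 2 : ℝ) ^ (m (J + 1))) * 8 ^ (k J) := by
        gcongr
    _ = 2 * ((1 / 2) ^ (k J) * 8) ^ (k J) := h2
    _ ≤ 2 * 1 := by
        gcongr
        exact pow_le_one₀ (by positivity) h3
    _ = 2 := by norm_num

theorem tendsto_ck {ρ : ℝ} (hρ : 1 < ρ) : Tendsto (fun J => c J * ρ ^ (k J)) atTop atTop := by
  have h1 : Tendsto (fun n : ℕ => ρ ^ n / 2) atTop atTop :=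
    (tendsto_pow_atTop_atTop_of_one_lt hρ).atTop_div_const (by norm_num)
  have h2 : Tendsto (fun n : ℕ => (ρ ^ n / 2) ^ n) atTop atTop := by
    refine tendsto_atTop_mono' _ ?_ (tendsto_pow_atTop_atTop_of_one_lt (one_lt_two (α := ℝ)))
    filter_upwards [h1.eventually_ge_atTop 2] with n hn
    gcongr
  refine (h2.comp m_strictMono.tendsto_atTop).congr fun J => ?_
  simp only [Function.comp, c, k]
  rw [div_pow, ← pow_mul, pow_two, one_div, inv_pow]
  ring


/-! ### The function and its regularity -/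

variable {n : ℕ}

/-- `ℂ^n` with the Euclidean norm -/
abbrev Cn (n : ℕ) : Type := EuclideanSpace ℂ (Fin n)

/-- the terms of the series -/
noncomputable def term (ζ : ℕ → Cn n) (J : ℕ) (z : Cn n) : ℂ :=
  (c J : ℂ) * (inner ℂ (ζ J) z) ^ (k J)

theorem term_eq (ζ : ℕ → Cn n) (J : ℕ) :
    term ζ J = (fun u : ℂ => (c J : ℂ) * u ^ (k J)) ∘ (innerSL ℂ (ζ J)) := by
  funext z
  simp [term]

theorem term_contDiff (ζ : ℕ → Cn n) (J : ℕ) (N : WithTop ℕ∞) : ContDiff ℂ N (term ζ J) := by
  rw [term_eq]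
  exact (contDiff_const.mul (contDiff_id.pow _)).comp (innerSL ℂ (ζ J)).contDiff

theorem norm_term_le (ζ : ℕ → Cn n) (hζ : ∀ J, ‖ζ J‖ ≤ 1) (J : ℕ) {z : Cn n} {K : ℝ}
    (hK : ‖z‖ ≤ K) : ‖term ζ J z‖ ≤ c J * K ^ (k J) := by
  have h1 : ‖inner ℂ (ζ J) z‖ ≤ K := by
    refine (norm_inner_le_norm _ _).trans ?_
    calc ‖ζ J‖ * ‖z‖ ≤ 1 * ‖z‖ := by gcongr; exact hζ J
      _ ≤ K := by linarith
  rw [term, norm_mul, norm_pow, Complex.norm_real, Real.norm_of_nonneg (c_pos J).le]
  gcongr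
  exact (c_pos J).le

theorem norm_iteratedFDeriv_term_le (ζ : ℕ → Cn n) (hζ : ∀ J, ‖ζ J‖ ≤ 1) (J N : ℕ) {z : Cn n}
    (hz : ‖z‖ ≤ 1) : ‖iteratedFDeriv ℂ N (term ζ J) z‖ ≤ c J * (k J : ℝ) ^ N := by
  have h1 : ‖inner ℂ (ζ J) z‖ ≤ 1 := by
    refine (norm_inner_le_norm _ _).trans ?_
    calc ‖ζ J‖ * ‖z‖ ≤ 1 * 1 := by gcongr; exact hζ J
      _ = 1 := by norm_num
  have hp : ContDiff ℂ N (fun u : ℂ => (c J : ℂ) * u ^ (k J)) := by fun_prop
  rw [term_eq, ContinuousLinearMap.iteratedFDeriv_comp_right _ hp z le_rfl]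
  refine (ContinuousMultilinearMap.norm_compContinuousLinearMap_le _ _).trans ?_
  rw [norm_iteratedFDeriv_eq_norm_iteratedDeriv]
  have h2 : ∏ _i : Fin N, ‖innerSL ℂ (ζ J)‖ ≤ 1 := by
    refine Finset.prod_le_one (fun _ _ => norm_nonneg _) fun _ _ => ?_
    rw [innerSL_apply_norm]
    exact hζ J
  have h3 : ‖iteratedDeriv N (fun u : ℂ => (c J : ℂ) * u ^ (k J)) (innerSL ℂ (ζ J) z)‖ ≤
      c J * (k J : ℝ) ^ N := by
    rw [iteratedDeriv_const_mul_field, iteratedDeriv_pow]
    rw [norm_mul, Complex.norm_real, Real.norm_of_nonneg (c_pos J).le]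
    have h4 : ‖((k J).descFactorial N : ℂ) * (innerSL ℂ (ζ J) z) ^ (k J - N)‖ ≤ (k J : ℝ) ^ N := by
      rw [norm_mul, norm_pow, Complex.norm_natCast]
      have h5 : ((k J).descFactorial N : ℝ) ≤ (k J : ℝ) ^ N := by
        exact_mod_cast Nat.descFactorial_le_pow _ _
      have h6 : ‖innerSL ℂ (ζ J) z‖ ^ (k J - N) ≤ 1 := by
        apply pow_le_one₀ (norm_nonneg _)
        simpa using h1
      calc _ ≤ (k J : ℝ) ^ N * 1 := by gcongr
        _ = _ := mul_one _
    gcongr
    exact (c_pos J).le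
  calc _ ≤ (c J * (k J : ℝ) ^ N) * 1 := by
        gcongr
        · have := c_pos J
          positivity
    _ = _ := mul_one _

/-- the function -/
noncomputable def F (ζ : ℕ → Cn n) (z : Cn n) : ℂ := ∑' J, term ζ J z

theorem summable_term (ζ : ℕ → Cn n) (hζ : ∀ J, ‖ζ J‖ ≤ 1) {z : Cn n} (hz : ‖z‖ ≤ 1) :
    Summable fun J => term ζ J z := by
  refine Summable.of_norm_bounded summable_c fun J => ?_
  simpa using norm_term_le ζ hζ J hz

theorem iteratedFDeriv_F (ζ : ℕ → Cn n) (hζ : ∀ J, ‖ζ J‖ ≤ 1) (N : ℕ) :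
    ∀ z ∈ ball (0 : Cn n) 1,
      iteratedFDeriv ℂ N (F ζ) z = ∑' J, iteratedFDeriv ℂ N (term ζ J) z := by
  induction N with
  | zero =>
    intro z hz
    have hz1 : ‖z‖ ≤ 1 := by
      rw [mem_ball_zero_iff] at hz
      exact hz.le
    ext v
    have h0 : ∀ J, iteratedFDeriv ℂ 0 (term ζ J) z =
        (continuousMultilinearCurryFin0 ℂ (Cn n) ℂ).symm (term ζ J z) := by
      intro J
      rw [iteratedFDeriv_zero_eq_comp]
      rfl
    simp only [h0]
    rw [iteratedFDeriv_zero_eq_comp]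
    have h2 : (continuousMultilinearCurryFin0 ℂ (Cn n) ℂ).symm (∑' J, term ζ J z) =
        ∑' J, (continuousMultilinearCurryFin0 ℂ (Cn n) ℂ).symm (term ζ J z) :=
      (continuousMultilinearCurryFin0 ℂ (Cn n) ℂ).symm.toContinuousLinearEquiv.map_tsum
    rw [← h2]
    rfl
  | succ N ih =>
    intro z hz
    have hd : ∀ J, ∀ w ∈ ball (0 : Cn n) 1, HasFDerivAt (iteratedFDeriv ℂ N (term ζ J))
        (fderiv ℂ (iteratedFDeriv ℂ N (term ζ J)) w) w := by
      intro J w _
      have h1 : ContDiff ℂ 1 (iteratedFDeriv ℂ N (term ζ J)) :=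
        (term_contDiff ζ J (N + 1 : ℕ)).iteratedFDeriv_right (by norm_cast; omega)
      exact (h1.differentiable (by norm_num) w).hasFDerivAt
    have hb : ∀ J, ∀ w ∈ ball (0 : Cn n) 1, ‖fderiv ℂ (iteratedFDeriv ℂ N (term ζ J)) w‖ ≤
        c J * (k J : ℝ) ^ (N + 1) := by
      intro J w hw
      rw [norm_fderiv_iteratedFDeriv]
      exact norm_iteratedFDeriv_term_le ζ hζ J (N + 1) (mem_ball_zero_iff.1 hw).le
    have hs0 : Summable fun J => iteratedFDeriv ℂ N (term ζ J) z :=
      Summable.of_norm_bounded (summable_ck N) fun J =>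
        norm_iteratedFDeriv_term_le ζ hζ J N (mem_ball_zero_iff.1 hz).le
    have h1 := hasFDerivAt_tsum_of_isPreconnected (summable_ck (N + 1)) isOpen_ball
      (convex_ball (0 : Cn n) 1).isPreconnected hd hb hz hs0 hz
    have h2 : iteratedFDeriv ℂ N (F ζ) =ᶠ[𝓝 z] fun y => ∑' J, iteratedFDeriv ℂ N (term ζ J) y := by
      filter_upwards [isOpen_ball.mem_nhds hz] with y hy
      exact ih y hy
    have h3 := (h1.congr_of_eventuallyEq h2).fderiv
    rw [iteratedFDeriv_succ_eq_comp_left]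
    simp only [Function.comp]
    rw [h3]
    have h4 : ∀ J, iteratedFDeriv ℂ (N + 1) (term ζ J) z =
        (continuousMultilinearCurryLeftEquiv ℂ (fun _ : Fin (N + 1) => Cn n) ℂ).symm
          (fderiv ℂ (iteratedFDeriv ℂ N (term ζ J)) z) := by
      intro J
      rw [iteratedFDeriv_succ_eq_comp_left]
      rfl
    simp only [h4]
    exact (continuousMultilinearCurryLeftEquiv ℂ
      (fun _ : Fin (N + 1) => Cn n) ℂ).symm.toContinuousLinearEquiv.map_tsum

/-- `f` belongs to `A^∞(B)`: it is holomorphic on the open unit ball `B` of `ℂ^n`, and all its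
derivatives, of every order, extend continuously to the closed ball. -/
def AInfinity (f : Cn n → ℂ) : Prop :=
  DifferentiableOn ℂ f (ball 0 1) ∧ ∀ N : ℕ,
    ∃ g : Cn n → ContinuousMultilinearMap ℂ (fun _ : Fin N => Cn n) ℂ,
      ContinuousOn g (closedBall 0 1) ∧ EqOn g (iteratedFDeriv ℂ N f) (ball 0 1)

theorem F_AInfinity (ζ : ℕ → Cn n) (hζ : ∀ J, ‖ζ J‖ ≤ 1) : AInfinity (F ζ) := by
  constructor
  · intro z hz
    have hd : ∀ J, ∀ w ∈ ball (0 : Cn n) 1, HasFDerivAt (term ζ J)
        (fderiv ℂ (term ζ J) w) w := fun J w _ =>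
      ((term_contDiff ζ J 1).differentiable (by norm_num) w).hasFDerivAt
    have hb : ∀ J, ∀ w ∈ ball (0 : Cn n) 1, ‖fderiv ℂ (term ζ J) w‖ ≤
        c J * (k J : ℝ) ^ 1 := by
      intro J w hw
      rw [← norm_iteratedFDeriv_one]
      exact norm_iteratedFDeriv_term_le ζ hζ J 1 (mem_ball_zero_iff.1 hw).le
    exact (hasFDerivAt_tsum_of_isPreconnected (summable_ck 1) isOpen_ball
      (convex_ball (0 : Cn n) 1).isPreconnected hd hb hz
      (summable_term ζ hζ (mem_ball_zero_iff.1 hz).le) hz).differentiableAt.differentiableWithinAt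
  · intro N
    refine ⟨fun z => ∑' J, iteratedFDeriv ℂ N (term ζ J) z, ?_, fun z hz =>
      (iteratedFDeriv_F ζ hζ N z hz).symm⟩
    refine continuousOn_tsum (fun J => ?_) (summable_ck N) fun J z hz =>
      norm_iteratedFDeriv_term_le ζ hζ J N (mem_closedBall_zero_iff.1 hz)
    exact ((term_contDiff ζ J N).continuous_iteratedFDeriv le_rfl).continuousOn

/-! ### No continuation -/

theorem norm_partialSum_le (ζ : ℕ → Cn n) (hζ : ∀ J, ‖ζ J‖ ≤ 1) (J : ℕ) {z : Cn n} {K : ℝ}
    (hK1 : 1 ≤ K) (hK : ‖z‖ ≤ K) :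
    ‖∑ j ∈ Finset.range (J + 1), term ζ j z‖ ≤ K ^ (k J) := by
  have hk : ∀ j ∈ Finset.range (J + 1), k j ≤ k J := by
    intro j hj
    have h1 : m j ≤ m J := m_strictMono.monotone (Finset.mem_range_succ_iff.1 hj)
    exact Nat.pow_le_pow_left h1 2
  refine (norm_sum_le _ _).trans ?_
  calc ∑ j ∈ Finset.range (J + 1), ‖term ζ j z‖ ≤ ∑ j ∈ Finset.range (J + 1), c j * K ^ (k J) := by
        refine Finset.sum_le_sum fun j hj => ?_
        refine (norm_term_le ζ hζ j hK).trans ?_
        have := c_pos j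
        gcongr
        · exact hk j hj
    _ = (∑ j ∈ Finset.range (J + 1), c j) * K ^ (k J) := by rw [Finset.sum_mul]
    _ ≤ 1 * K ^ (k J) := by
        gcongr
        exact sum_c_le J
    _ = _ := one_mul _

theorem norm_sub_partialSum_le (ζ : ℕ → Cn n) (hζ : ∀ J, ‖ζ J‖ ≤ 1) (J : ℕ) {z : Cn n}
    (hz : ‖z‖ ≤ 1) :
    ‖F ζ z - ∑ j ∈ Finset.range (J + 1), term ζ j z‖ ≤ ∑' i, c (i + (J + 1)) := by
  have hs := summable_term ζ hζ hz
  rw [F, ← hs.sum_add_tsum_nat_add (J + 1), add_sub_cancel_left]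
  have hc : Summable fun i => c (i + (J + 1)) := (summable_nat_add_iff (J + 1)).2 summable_c
  refine tsum_of_norm_bounded hc.hasSum fun i => ?_
  simpa using norm_term_le ζ hζ (i + (J + 1)) hz

/-- **No continuation**: the composition of the function with a holomorphic disc which leaves the
closed ball at a point `τ` of the unit circle does not extend holomorphically to a neighbourhood
of `τ`. -/
theorem no_extension (ζ : ℕ → Cn n) (hζ : ∀ J, ‖ζ J‖ ≤ 1)
    (hdense : ∀ z : Cn n, 1 < ‖z‖ → ∃ ρ : ℝ, 1 < ρ ∧ ∃ᶠ J in atTop, ρ ≤ ‖inner ℂ (ζ J) z‖)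
    {τ : ℂ} (hτ : ‖τ‖ = 1) {r : ℝ} (hr : 0 < r) (Φ : ℂ → Cn n)
    (hΦ : DifferentiableOn ℂ Φ (ball τ r))
    (hin : ∀ w ∈ ball τ r, ‖w‖ < 1 → ‖Φ w‖ ≤ 1)
    (hout : ∀ δ > 0, ∃ w ∈ ball τ δ, 1 < ‖Φ w‖)
    (h : ℂ → ℂ) (hh : DifferentiableOn ℂ h (ball τ r))
    (heq : ∀ w ∈ ball τ r, ‖w‖ < 1 → h w = F ζ (Φ w)) : False := by
  -- bounds on a smaller closed disc
  set r1 : ℝ := r / 2 with hr1
  have hr1pos : 0 < r1 := by positivity
  have hsub : closedBall τ r1 ⊆ ball τ r := closedBall_subset_ball (by rw [hr1]; linarith)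
  obtain ⟨M, hM⟩ := (isCompact_closedBall τ r1).exists_bound_of_continuousOn
    (hh.continuousOn.mono hsub)
  obtain ⟨K0, hK0⟩ := (isCompact_closedBall τ r1).exists_bound_of_continuousOn
    (hΦ.continuousOn.mono hsub)
  set K : ℝ := max K0 1 with hKdef
  have hK1 : 1 ≤ K := le_max_right _ _
  have hKpos : 0 < K := by linarith
  have hK : ∀ w ∈ closedBall τ r1, ‖Φ w‖ ≤ K := fun w hw => (hK0 w hw).trans (le_max_left _ _)
  have hM0 : 0 ≤ M := (norm_nonneg _).trans (hM τ (mem_closedBall_self hr1pos.le))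
  -- the radius
  set s : ℝ := r1 / 2 with hs
  have hspos : 0 < s := by positivity
  set δ : ℝ := min (s / (4 * K)) (1 / 2) with hδdef
  have hδpos : 0 < δ := by
    rw [hδdef]
    positivity
  have hδ1 : δ ≤ 1 / 2 := min_le_right _ _
  have hδs : δ * (4 * K) ≤ s := by
    have : δ ≤ s / (4 * K) := min_le_left _ _
    rwa [le_div_iff₀ (by positivity)] at this
  have hδs' : 4 * δ ≤ s := by nlinarith
  obtain ⟨w, hw, hwout⟩ := hout δ hδpos
  set w0 : ℂ := ((1 - δ : ℝ) : ℂ) * τ with hw0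
  have hw0τ : dist w0 τ = δ := by
    rw [dist_eq_norm, hw0]
    have : ((1 - δ : ℝ) : ℂ) * τ - τ = -((δ : ℝ) : ℂ) * τ := by push_cast; ring
    rw [this, norm_mul, norm_neg, Complex.norm_real, hτ, Real.norm_of_nonneg hδpos.le, mul_one]
  have hw0n : ‖w0‖ = 1 - δ := by
    rw [hw0, norm_mul, Complex.norm_real, hτ, Real.norm_of_nonneg (by linarith), mul_one]
  have hww0 : dist w w0 < 2 * δ := by
    calc dist w w0 ≤ dist w τ + dist τ w0 := dist_triangle _ _ _
      _ < δ + δ := by
        rw [dist_comm τ w0, hw0τ]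
        have := mem_ball.1 hw
        linarith
      _ = 2 * δ := by ring
  have hcb : closedBall w0 s ⊆ closedBall τ r1 := by
    refine closedBall_subset_closedBall' ?_
    rw [hw0τ]
    linarith
  have hball : ball w0 s ⊆ ball τ r := ball_subset_closedBall.trans (hcb.trans hsub)
  have hsmall : ∀ v ∈ ball w0 δ, v ∈ ball τ r ∧ ‖v‖ < 1 := by
    intro v hv
    refine ⟨hball (ball_subset_ball (by linarith) hv), ?_⟩
    have h1 : ‖v‖ ≤ ‖v - w0‖ + ‖w0‖ := by
      simpa using norm_add_le (v - w0) w0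
    rw [mem_ball, dist_eq_norm] at hv
    linarith
  -- the partial sums
  have key : ∀ J : ℕ, ‖∑ j ∈ Finset.range (J + 1), term ζ j (Φ w)‖ ≤ 2 * (M + 3) := by
    intro J
    set G : ℂ → ℂ := fun v => ∑ j ∈ Finset.range (J + 1), term ζ j (Φ v) with hG
    have hGd : DifferentiableOn ℂ G (ball τ r) := by
      refine DifferentiableOn.fun_sum fun j _ => ?_
      exact ((term_contDiff ζ j 1).differentiable (by norm_num)).comp_differentiableOn hΦ
    have hGK : ∀ v ∈ closedBall τ r1, ‖G v‖ ≤ K ^ (k J) := fun v hv =>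
      norm_partialSum_le ζ hζ J hK1 (hK v hv)
    set ε : ℝ := ∑' i, c (i + (J + 1)) with hε
    have hε0 : 0 ≤ ε := tsum_nonneg fun i => (c_pos _).le
    have hgap : ε * 8 ^ (k J) ≤ 2 := gap J
    -- Cauchy estimates
    have e1 : ∀ i : ℕ, ‖iteratedDeriv i G w0‖ ≤ i.factorial * K ^ (k J) / s ^ i := by
      intro i
      refine Complex.norm_iteratedDeriv_le_of_forall_mem_sphere_norm_le i hspos ?_ ?_
      · exact (hGd.mono (hcb.trans hsub)).diffContOnCl_ball Subset.rfl
      · exact fun v hv => hGK v (hcb (sphere_subset_closedBall hv))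
    have e2 : ∀ i : ℕ, ‖iteratedDeriv i h w0‖ ≤ i.factorial * M / s ^ i := by
      intro i
      refine Complex.norm_iteratedDeriv_le_of_forall_mem_sphere_norm_le i hspos ?_ ?_
      · exact (hh.mono (hcb.trans hsub)).diffContOnCl_ball Subset.rfl
      · exact fun v hv => hM v (hcb (sphere_subset_closedBall hv))
    have e3 : ∀ i : ℕ, ‖iteratedDeriv i (h - G) w0‖ ≤ i.factorial * ε / (δ / 2) ^ i := by
      intro i
      have hcb2 : closedBall w0 (δ / 2) ⊆ ball w0 δ := closedBall_subset_ball (by linarith)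
      refine Complex.norm_iteratedDeriv_le_of_forall_mem_sphere_norm_le i (by positivity) ?_ ?_
      · refine ((hh.sub hGd).mono ?_).diffContOnCl_ball Subset.rfl
        exact fun v hv => (hsmall v (hcb2 hv)).1
      · intro v hv
        obtain ⟨h1, h2⟩ := hsmall v (hcb2 (sphere_subset_closedBall hv))
        rw [Pi.sub_apply, heq v h1 h2]
        exact norm_sub_partialSum_le ζ hζ J (hin v h1 h2)
    have hw0r : w0 ∈ ball τ r := hball (mem_ball_self hspos)
    have a1 : ∀ i : ℕ, ContDiffAt ℂ i h w0 := fun i =>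
      (hh.analyticAt (isOpen_ball.mem_nhds hw0r)).contDiffAt
    have a2 : ∀ i : ℕ, ContDiffAt ℂ i G w0 := fun i =>
      (hGd.analyticAt (isOpen_ball.mem_nhds hw0r)).contDiffAt
    have e4 : ∀ i : ℕ, ‖iteratedDeriv i G w0‖ ≤
        i.factorial * M / s ^ i + i.factorial * ε / (δ / 2) ^ i := by
      intro i
      have h1 : iteratedDeriv i (h - G) w0 = iteratedDeriv i h w0 - iteratedDeriv i G w0 :=
        iteratedDeriv_sub (a1 i) (a2 i)
      have h2 : iteratedDeriv i G w0 = iteratedDeriv i h w0 - iteratedDeriv i (h - G) w0 := by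
        rw [h1]; ring
      rw [h2]
      exact (norm_sub_le _ _).trans (add_le_add (e2 i) (e3 i))
    -- the Taylor series
    have hwmem : w ∈ ball w0 s := by
      rw [mem_ball]
      linarith
    have hT := Complex.hasSum_taylorSeries_on_ball (hGd.mono hball) hwmem
    have hbound : ∀ i : ℕ, ‖(i.factorial : ℂ)⁻¹ • (w - w0) ^ i • iteratedDeriv i G w0‖ ≤
        (M + 3) * (1 / 2) ^ i := by
      intro i
      have hfac : (0 : ℝ) < i.factorial := by exact_mod_cast i.factorial_pos
      have hn : ‖(i.factorial : ℂ)⁻¹ • (w - w0) ^ i • iteratedDeriv i G w0‖ =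
          (i.factorial : ℝ)⁻¹ * (‖w - w0‖ ^ i * ‖iteratedDeriv i G w0‖) := by
        rw [norm_smul, norm_smul, norm_inv, norm_pow, Complex.norm_natCast]
      rw [hn]
      have hd : ‖w - w0‖ ≤ 2 * δ := by
        rw [← dist_eq_norm]
        exact hww0.le
      have hd' : ‖w - w0‖ ^ i ≤ (2 * δ) ^ i := by gcongr
      rcases le_or_gt i (k J) with hi | hi
      · have h1 : (2 * δ) ^ i / s ^ i ≤ (1 / 2) ^ i := by
          rw [← div_pow]
          have : 2 * δ / s ≤ 1 / 2 := by
            rw [div_le_iff₀ hspos]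
            linarith
          gcongr
        have h2 : (2 * δ) ^ i / (δ / 2) ^ i = 4 ^ i := by
          rw [← div_pow]
          congr 1
          field_simp
          norm_num
        have h3 : ε * 4 ^ i ≤ 2 * (1 / 2) ^ i := by
          have h4 : (4 : ℝ) ^ i = 8 ^ i * (1 / 2) ^ i := by
            rw [← mul_pow]; norm_num
          have h5 : ε * 8 ^ i ≤ 2 := by
            refine le_trans ?_ hgap
            gcongr
            norm_num
          rw [h4, ← mul_assoc]
          gcongr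
        calc (i.factorial : ℝ)⁻¹ * (‖w - w0‖ ^ i * ‖iteratedDeriv i G w0‖)
            ≤ (i.factorial : ℝ)⁻¹ * ((2 * δ) ^ i *
              (i.factorial * M / s ^ i + i.factorial * ε / (δ / 2) ^ i)) := by
              gcongr
              exact e4 i
          _ = M * ((2 * δ) ^ i / s ^ i) + ε * ((2 * δ) ^ i / (δ / 2) ^ i) := by
              field_simp
          _ ≤ M * (1 / 2) ^ i + 2 * (1 / 2) ^ i := by
              rw [h2]
              gcongr
          _ ≤ (M + 3) * (1 / 2) ^ i := by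
              have : (0 : ℝ) < (1 / 2) ^ i := by positivity
              nlinarith
      · have h1 : K ^ (k J) * ((2 * δ) ^ i / s ^ i) ≤ (1 / 2) ^ i := by
          have h2 : K ^ (k J) ≤ K ^ i := pow_le_pow_right₀ hK1 hi.le
          calc K ^ (k J) * ((2 * δ) ^ i / s ^ i) ≤ K ^ i * ((2 * δ) ^ i / s ^ i) := by gcongr
            _ = (K * (2 * δ / s)) ^ i := by rw [← div_pow, ← mul_pow]
            _ ≤ (1 / 2) ^ i := by
              have : K * (2 * δ / s) ≤ 1 / 2 := by
                rw [← mul_div_assoc, div_le_iff₀ hspos]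
                linarith
              gcongr
        calc (i.factorial : ℝ)⁻¹ * (‖w - w0‖ ^ i * ‖iteratedDeriv i G w0‖)
            ≤ (i.factorial : ℝ)⁻¹ * ((2 * δ) ^ i * (i.factorial * K ^ (k J) / s ^ i)) := by
              gcongr
              exact e1 i
          _ = K ^ (k J) * ((2 * δ) ^ i / s ^ i) := by
              field_simp
          _ ≤ (1 / 2) ^ i := h1
          _ ≤ (M + 3) * (1 / 2) ^ i := by
              have : (0 : ℝ) < (1 / 2) ^ i := by positivity
              nlinarith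
    have hgeo : HasSum (fun i : ℕ => (M + 3) * (1 / 2 : ℝ) ^ i) ((M + 3) * 2) := by
      have := hasSum_geometric_of_lt_one (r := (1 / 2 : ℝ)) (by norm_num) (by norm_num)
      have h2 := this.mul_left (M + 3)
      have h3 : ((1 : ℝ) - 1 / 2)⁻¹ = 2 := by norm_num
      rw [h3] at h2
      exact h2
    have := tsum_of_norm_bounded hgeo hbound
    rw [hT.tsum_eq] at this
    calc ‖G w‖ ≤ (M + 3) * 2 := this
      _ = _ := by ring
  -- the terms are bounded
  have hterm : ∀ J : ℕ, ‖term ζ (J + 1) (Φ w)‖ ≤ 4 * (M + 3) := by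
    intro J
    have h1 : term ζ (J + 1) (Φ w) = (∑ j ∈ Finset.range (J + 1 + 1), term ζ j (Φ w)) -
        ∑ j ∈ Finset.range (J + 1), term ζ j (Φ w) := by
      rw [Finset.sum_range_succ _ (J + 1)]
      ring
    rw [h1]
    refine (norm_sub_le _ _).trans ?_
    linarith [key J, key (J + 1)]
  obtain ⟨ρ, hρ, hfreq⟩ := hdense (Φ w) hwout
  have hev := (tendsto_ck hρ).eventually_gt_atTop (4 * (M + 3))
  obtain ⟨J, ⟨hJ1, hJ2⟩, hJ3⟩ := ((hfreq.and_eventually hev).and_eventually
    (eventually_ge_atTop 1)).exists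
  obtain ⟨J', rfl⟩ : ∃ J', J = J' + 1 := ⟨J - 1, by omega⟩
  have h1 := hterm J'
  rw [term, norm_mul, norm_pow, Complex.norm_real, Real.norm_of_nonneg (c_pos _).le] at h1
  have h2 : c (J' + 1) * ρ ^ k (J' + 1) ≤ c (J' + 1) * ‖inner ℂ (ζ (J' + 1)) (Φ w)‖ ^ k (J' + 1) := by
    have := c_pos (J' + 1)
    gcongr
  linarith

/-- There is a sequence in the closed unit ball which comes back to all directions. -/
theorem exists_directions (n : ℕ) : ∃ ζ : ℕ → Cn n, (∀ J, ‖ζ J‖ ≤ 1) ∧
    ∀ z : Cn n, 1 < ‖z‖ → ∃ ρ : ℝ, 1 < ρ ∧ ∃ᶠ J in atTop, ρ ≤ ‖inner ℂ (ζ J) z‖ := by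
  have : Nonempty (closedBall (0 : Cn n) 1) := ⟨⟨0, mem_closedBall_self zero_le_one⟩⟩
  set d : ℕ → closedBall (0 : Cn n) 1 := TopologicalSpace.denseSeq (closedBall (0 : Cn n) 1) with hd
  refine ⟨fun J => (d (Nat.unpair J).1 : Cn n), fun J => mem_closedBall_zero_iff.1 (d _).2, ?_⟩
  intro z hz
  refine ⟨(1 + ‖z‖) / 2, by linarith, ?_⟩
  have hz0 : 0 < ‖z‖ := by linarith
  set u : closedBall (0 : Cn n) 1 := ⟨((‖z‖⁻¹ : ℝ) : ℂ) • z, by
    rw [mem_closedBall_zero_iff, norm_smul, Complex.norm_real, norm_inv, norm_norm,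
      inv_mul_cancel₀ hz0.ne']⟩ with hu
  have hcont : Continuous fun v : closedBall (0 : Cn n) 1 => ‖inner ℂ (v : Cn n) z‖ := by
    fun_prop
  have huz : ‖inner ℂ (u : Cn n) z‖ = ‖z‖ := by
    rw [hu]
    simp only
    rw [inner_smul_left, norm_mul, inner_self_eq_norm_sq_to_K, RCLike.norm_conj,
      Complex.norm_real, norm_inv, norm_norm, norm_pow]
    simp only [Complex.coe_algebraMap, Complex.norm_real, norm_norm]
    field_simp
  have hopen : IsOpen {v : closedBall (0 : Cn n) 1 | (1 + ‖z‖) / 2 < ‖inner ℂ (v : Cn n) z‖} :=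
    isOpen_lt continuous_const hcont
  obtain ⟨v, hv, i, rfl⟩ := (TopologicalSpace.denseRange_denseSeq
    (closedBall (0 : Cn n) 1)).inter_open_nonempty _ hopen ⟨u, by
      show (1 + ‖z‖) / 2 < ‖inner ℂ (u : Cn n) z‖
      rw [huz]
      linarith⟩
  rw [frequently_atTop]
  intro N
  refine ⟨Nat.pair i N, Nat.right_le_pair i N, ?_⟩
  simp only [Nat.unpair_pair]
  exact le_of_lt hv

/-- The function `g`, holomorphic in the open unit disc, has the unit circle as its natural
boundary: for no point `τ` of the unit circle is there an open disc `D` with centre `c` and radius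
`r` which contains `τ`, and a holomorphic function `h` on `D`, equal to `g` on the intersection of
`D` with the open unit disc. -/
def HasNaturalBoundary (g : ℂ → ℂ) : Prop :=
  DifferentiableOn ℂ g (ball 0 1) ∧ ∀ τ : ℂ, ‖τ‖ = 1 → ∀ (c : ℂ) (r : ℝ), τ ∈ ball c r →
    ¬ ∃ h : ℂ → ℂ, DifferentiableOn ℂ h (ball c r) ∧ EqOn h g (ball c r ∩ ball 0 1)

/-- The property (NB): for every nonconstant affine map `Φ(w) = a + w b` which maps the unit circle
to the unit sphere, `f ∘ Φ` has the unit circle as its natural boundary. -/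
def PropertyNB (f : Cn n → ℂ) : Prop :=
  ∀ a b : Cn n, b ≠ 0 → (∀ w : ℂ, ‖w‖ = 1 → ‖a + w • b‖ = 1) →
    HasNaturalBoundary fun w => f (a + w • b)

/-- The same for all holomorphic discs: for every map `Φ`, holomorphic on a neighbourhood
`{|w| < R}`, `R > 1`, of the closed unit disc, not constant, and which maps the unit circle to the
unit sphere, `f ∘ Φ` has the unit circle as its natural boundary. -/
def PropertyNBDiscs (f : Cn n → ℂ) : Prop :=
  ∀ (Φ : ℂ → Cn n) (R : ℝ), 1 < R → DifferentiableOn ℂ Φ (ball 0 R) →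
    (∃ w₁ ∈ ball (0 : ℂ) R, ∃ w₂ ∈ ball (0 : ℂ) R, Φ w₁ ≠ Φ w₂) →
    (∀ w : ℂ, ‖w‖ = 1 → ‖Φ w‖ = 1) → HasNaturalBoundary fun w => f (Φ w)

theorem discs_of_directions (ζ : ℕ → Cn n) (hζ : ∀ J, ‖ζ J‖ ≤ 1)
    (hdense : ∀ z : Cn n, 1 < ‖z‖ → ∃ ρ : ℝ, 1 < ρ ∧ ∃ᶠ J in atTop, ρ ≤ ‖inner ℂ (ζ J) z‖) :
    PropertyNBDiscs (F ζ) := by
  intro Φ R hR hΦ hne hT
  have hle : ∀ w ∈ closedBall (0 : ℂ) 1, ‖Φ w‖ ≤ 1 := by
    intro w hw
    have hd : DiffContOnCl ℂ Φ (ball 0 1) :=
      (hΦ.mono (closedBall_subset_ball hR)).diffContOnCl_ball Subset.rfl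
    refine Complex.norm_le_of_forall_mem_frontier_norm_le isBounded_ball hd ?_ ?_
    · intro v hv
      rw [frontier_ball _ one_ne_zero, mem_sphere_zero_iff_norm] at hv
      exact (hT v hv).le
    · rwa [closure_ball _ one_ne_zero]
  refine ⟨?_, ?_⟩
  · have h1 : DifferentiableOn ℂ (fun w => ∑' J, term ζ J (Φ w)) (ball 0 1) := by
      refine Complex.differentiableOn_tsum_of_summable_norm summable_c (fun J => ?_) isOpen_ball
        fun J w hw => ?_
      · exact ((term_contDiff ζ J 1).differentiable (by norm_num)).comp_differentiableOn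
          (hΦ.mono (ball_subset_ball hR.le))
      · simpa using norm_term_le ζ hζ J (hle w (ball_subset_closedBall hw))
    exact h1
  · rintro τ hτ c r hc ⟨h, hh, heq⟩
    rw [mem_ball] at hc
    set r' : ℝ := min (r - dist τ c) (R - 1) with hr'
    have hr'pos : 0 < r' := lt_min (by linarith) (by linarith)
    have hs1 : ball τ r' ⊆ ball c r := ball_subset_ball' (by
      have : r' ≤ r - dist τ c := min_le_left _ _
      linarith)
    have hs2 : ball τ r' ⊆ ball 0 R := ball_subset_ball' (by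
      have : r' ≤ R - 1 := min_le_right _ _
      rw [dist_zero_right, hτ]
      linarith)
    refine no_extension ζ hζ hdense hτ hr'pos Φ (hΦ.mono hs2)
      (fun w _ hw => hle w (mem_closedBall_zero_iff.2 hw.le)) ?_ h (hh.mono hs1)
      (fun w hw hw1 => heq ⟨hs1 hw, mem_ball_zero_iff.2 hw1⟩)
    intro δ hδ
    by_contra hcon
    push Not at hcon
    -- the maximum principle on a small disc
    have hmin : 0 < min δ r' := lt_min hδ hr'pos
    have hmax : IsMaxOn (norm ∘ Φ) (ball τ (min δ r')) τ := by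
      intro w hw
      show ‖Φ w‖ ≤ ‖Φ τ‖
      rw [hT τ hτ]
      exact hcon w (ball_subset_ball (min_le_left _ _) hw)
    have hsub : ball τ (min δ r') ⊆ ball 0 R := (ball_subset_ball (min_le_right _ _)).trans hs2
    have hconst := Complex.eqOn_of_isPreconnected_of_isMaxOn_norm
      (convex_ball τ (min δ r')).isPreconnected isOpen_ball (hΦ.mono hsub)
      (mem_ball_self hmin) hmax
    have hana : AnalyticOnNhd ℂ Φ (ball 0 R) := hΦ.analyticOnNhd isOpen_ball
    have hana2 : AnalyticOnNhd ℂ (fun _ : ℂ => Φ τ) (ball 0 R) := fun _ _ => analyticAt_const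
    have hτR : τ ∈ ball (0 : ℂ) R := hsub (mem_ball_self hmin)
    have hall : EqOn Φ (fun _ => Φ τ) (ball 0 R) :=
      hana.eqOn_of_preconnected_of_eventuallyEq hana2 (convex_ball (0 : ℂ) R).isPreconnected hτR
        (by
          filter_upwards [isOpen_ball.mem_nhds (mem_ball_self hmin)] with w hw
          exact hconst hw)
    obtain ⟨w₁, h1, w₂, h2, h3⟩ := hne
    exact h3 ((hall h1).trans (hall h2).symm)

theorem propertyNB_of_discs {f : Cn n → ℂ} (hf : PropertyNBDiscs f) : PropertyNB f := by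
  intro a b hb hT
  refine hf (fun w => a + w • b) 2 one_lt_two ?_ ⟨0, by simp, 1, by simp, ?_⟩ hT
  · fun_prop
  · simpa using hb

/-- **Natural boundaries on all affine discs, and on all holomorphic discs.** For every `n` there is
a function `f` in `A^∞(B)`, `B` the unit ball of `ℂ^n`, with the property (NB): for every nonconstant
affine map `Φ` which maps the unit circle to the unit sphere the circle is the natural boundary of
`f ∘ Φ`. This holds for the same `f` for all nonconstant maps `Φ`, holomorphic in a neighbourhood of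
the closed disc, which map the circle to the sphere. -/
theorem result (n : ℕ) : ∃ f : Cn n → ℂ, AInfinity f ∧ PropertyNB f ∧ PropertyNBDiscs f := by
  obtain ⟨ζ, hζ, hdense⟩ := exists_directions n
  have h := discs_of_directions ζ hζ hdense
  exact ⟨F ζ, F_AInfinity ζ hζ, propertyNB_of_discs h, h⟩

end Pool.Agent.Results.MP_ca9574_an.NaturalBoundaryH86
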